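import Pool.Agent.R284.RC.Stm

/-! RC-FIN1 (helper164). -/

set_option autoImplicit false
open MeasureTheory Set Filter Topology
open scoped ENNReal NNReal

namespace Pool.Agent.Helper164.RC

open Pool.Agent.R284.RC

theorem measurable_kr {n : ℕ} (p : ℝ) : Measurable (fun z : E n × E n => kr p z.1 z.2) := by
  have hd : Measurable (fun z : E n × E n => dist z.1 z.2) :=
    (continuous_fst.dist continuous_snd).measurable
  unfold kr
  split_ifs
  · exact (Real.measurable_log.comp hd).neg
  · exact hd.pow_const _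

theorem measurable_ke {n : ℕ} (p : ℝ) : Measurable (fun z : E n × E n => ke p z.1 z.2) := by
  unfold ke
  refine Measurable.ite ?_ measurable_const ?_
  · exact (isClosed_eq continuous_fst continuous_snd).measurableSet
  · exact ENNReal.measurable_ofReal.comp ((measurable_kr p).abs)

theorem enorm_kr_le {n : ℕ} (p : ℝ) (x y : E n) : ‖kr p x y‖ₑ ≤ ke p x y := by
  unfold ke
  split_ifs
  · exact le_top
  · rw [← Real.enorm_eq_ofReal_abs]

theorem fin1_proof (hR : S_pdR) (hL : S_pdL) : S_fin1 := by
  intro n p q μ ν V C1 C2 γ hctx H τ hτ hτs hfin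
  obtain ⟨hp, hpq, -, hμ, hB, hBS, hV, hlow, -, hν, hνB, hνf, hνE, -⟩ := hctx
  obtain ⟨R, hRR⟩ := hBS
  have hsub : μ.support ⊆ Metric.closedBall 0 R :=
    Measure.support_subset_of_isClosed Metric.isClosed_closedBall (by
      rw [mem_ae_iff]
      exact hRR)
  have hτB : BS τ := by
    refine ⟨R, ?_⟩
    exact measure_mono_null (compl_subset_compl.mpr hsub) hτs
  have key : FinEn p τ ν ∧ 2 * En p τ ν ≤ En p τ τ + En p ν ν := by
    rcases eq_or_lt_of_le hp with h | h
    · subst h
      exact hL n τ ν hτ hν hτB hνB hfin hνf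
    · exact hR n p h τ ν hτ hν hτB hνB hfin hνf
  obtain ⟨kf, ke1⟩ := key
  have hmeas : Measurable (fun x : E n => ∫⁻ y, ke p x y ∂ν) :=
    Measurable.lintegral_prod_right' (measurable_ke p)
  have hae : ∀ᵐ x ∂τ, ∫⁻ y, ke p x y ∂ν < ⊤ := ae_lt_top hmeas (ne_of_lt kf)
  have hsupp : ∀ᵐ x ∂τ, x ∈ μ.support := by
    rw [ae_iff]
    exact hτs
  have hint : Integrable (fun z : E n × E n => kr p z.1 z.2) (τ.prod ν) := by
    refine ⟨(measurable_kr p).aestronglyMeasurable, ?_⟩
    rw [hasFiniteIntegral_iff_enorm]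
    rw [lintegral_prod _ ((measurable_kr p).enorm.aemeasurable)]
    refine lt_of_le_of_lt ?_ kf
    refine lintegral_mono fun x => ?_
    exact lintegral_mono fun y => enorm_kr_le p x y
  have h2 : ∫ x, V ∂τ ≤ ∫ x, U p ν x ∂τ := by
    refine integral_mono_ae (integrable_const _) hint.integral_prod_left ?_
    filter_upwards [hae, hsupp] with x h1 h2 using H x h2 h1
  rw [integral_const, probReal_univ, one_smul] at h2
  have h3 : V ≤ En p τ ν := h2
  linarith

end Pool.Agent.Helper164.RC
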