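import Pool.Agent.R284.RC.Stm

/-! RC-MASS and RC-LOC3 (helper164). -/

set_option autoImplicit false
open MeasureTheory Set Filter Topology
open scoped ENNReal NNReal

namespace Pool.Agent.Helper164.RC

open Pool.Agent.R284.RC

theorem restrict_eq_smul_nr {n : ℕ} (σ : Measure (E n)) [IsProbabilityMeasure σ] (D : Set (E n))
    (h : σ D ≠ 0) : σ D • nr σ D = σ.restrict D := by
  rw [nr, smul_smul, ENNReal.mul_inv_cancel h (measure_ne_top σ D), one_smul]

theorem mix_eq {n : ℕ} (σ : Measure (E n)) [IsProbabilityMeasure σ] (D : Set (E n))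
    (hD : MeasurableSet D) (h : σ D ≠ 0) (h' : σ Dᶜ ≠ 0) :
    mixM (1 - (σ D).toReal) (nr σ D) (nr σ Dᶜ) = σ := by
  have h1 : ENNReal.ofReal (1 - (1 - (σ D).toReal)) = σ D := by
    rw [sub_sub_cancel, ENNReal.ofReal_toReal (measure_ne_top σ D)]
  have h2 : ENNReal.ofReal (1 - (σ D).toReal) = σ Dᶜ := by
    have h3 : (σ Dᶜ).toReal = 1 - (σ D).toReal := by
      have := probReal_compl_eq_one_sub (μ := σ) hD
      exact this
    rw [← h3, ENNReal.ofReal_toReal (measure_ne_top σ _)]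
  rw [mixM, h1, h2, restrict_eq_smul_nr σ D h, restrict_eq_smul_nr σ Dᶜ h',
    Measure.restrict_add_restrict_compl hD]

/-- lower bound of the mutual energy -/
theorem En_ge {n : ℕ} (p q : ℝ) (hint : S_int) (hp : 0 ≤ p) (hpq : p < q)
    (σ τ : Measure (E n)) (hσ : IsProbabilityMeasure σ) (hτ : IsProbabilityMeasure τ)
    (hb : BP q τ) (bσ : BS σ) (bτ : BS τ) (T : Set (E n)) (hσT : σ Tᶜ = 0)
    (hτT : τ Tᶜ = 0) (L : ℝ) (hL : ∀ x ∈ T, ∀ y ∈ T, -L ≤ kr p x y) : -L ≤ En p σ τ := by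
  obtain ⟨i1, i2, -⟩ := hint n p q hp hpq σ τ inferInstance inferInstance hb bσ bτ
  have hU : ∀ x ∈ T, -L ≤ U p τ x := by
    intro x hx
    have h1 : ∫ y, (-L) ∂τ ≤ ∫ y, kr p x y ∂τ := by
      refine integral_mono_ae (integrable_const _) (i2 x) ?_
      have hT : ∀ᵐ y ∂τ, y ∈ T := by
        rw [ae_iff]
        exact hτT
      filter_upwards [hT] with y hy using hL x hx y hy
    rw [integral_const, probReal_univ, one_smul] at h1
    exact h1
  have h2 : ∫ x, (-L) ∂σ ≤ ∫ x, U p τ x ∂σ := by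
    refine integral_mono_ae (integrable_const _) i1.integral_prod_left ?_
    have hT : ∀ᵐ x ∂σ, x ∈ T := by
      rw [ae_iff]
      exact hσT
    filter_upwards [hT] with x hx using hU x hx
  rw [integral_const, probReal_univ, one_smul] at h2
  exact h2

theorem nr_null {n : ℕ} (σ : Measure (E n)) (D T : Set (E n)) (h : σ T = 0) : nr σ D T = 0 := by
  have h1 : σ.restrict D T = 0 := by
    have := Measure.restrict_le_self (μ := σ) (s := D) T
    rw [h] at this
    exact le_antisymm this zero_le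
  rw [nr, Measure.smul_apply, h1, smul_zero]

theorem mass_proof (hcls : S_cls) (hexp : S_exp) (hint : S_int) : S_mass := by
  intro n p q hp hpq μ hμ hB V hV hlow σ hσ D T hD hT e S L he hS hL hE hLB hσT hkr
  obtain ⟨c1, c2, c3, -, -⟩ := hcls n q μ hμ
  have hprob : IsProbabilityMeasure σ := hσ.1
  set m : ℝ := (σ D).toReal with hm
  have hm0 : 0 ≤ m := ENNReal.toReal_nonneg
  have hm1 : m ≤ 1 := by
    have : σ D ≤ 1 := prob_le_one
    exact ENNReal.toReal_le_of_le_ofReal (by norm_num) (by simpa using this)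
  by_cases h0 : σ D = 0
  · have : m = 0 := by rw [hm, h0]; simp
    rw [this]
    nlinarith
  by_cases h1 : σ Dᶜ = 0
  · have h2 := hLB σ hσ h1
    have hmeq : m = 1 := by
      have := probReal_compl_eq_one_sub (μ := σ) hD
      have h3 : (σ Dᶜ).toReal = 1 - m := this
      rw [h1] at h3
      simp at h3
      linarith
    rw [hmeq]
    nlinarith
  obtain ⟨a1, a2⟩ := c3 σ hσ D hD h0
  obtain ⟨b1, b2⟩ := c3 σ hσ Dᶜ hD.compl h1
  have hp1 : IsProbabilityMeasure (nr σ D) := a1.1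
  have hp2 : IsProbabilityMeasure (nr σ Dᶜ) := b1.1
  have bp1 := c2 hB _ a1
  have bp2 := c2 hB _ b1
  have bs1 : BS (nr σ D) := a1.2.2
  have bs2 : BS (nr σ Dᶜ) := b1.2.2
  have f11 := (hint n p q hp hpq (nr σ D) (nr σ D) inferInstance inferInstance bp1 bs1 bs1).2.2
  have f22 := (hint n p q hp hpq (nr σ Dᶜ) (nr σ Dᶜ) inferInstance inferInstance bp2 bs2 bs2).2.2
  have f12 := (hint n p q hp hpq (nr σ D) (nr σ Dᶜ) inferInstance inferInstance bp2 bs1 bs2).2.2
  obtain ⟨-, hex⟩ := hexp n p (nr σ D) (nr σ Dᶜ) hp1 hp2 f11 f22 f12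
  obtain ⟨-, hex2, -⟩ := hex (1 - m) ⟨by linarith, by linarith⟩
  rw [mix_eq σ D hD h0 h1] at hex2
  have g1 := hLB _ a1 a2
  have g2 := hlow _ b1
  have g3 := En_ge p q hint hp hpq (nr σ D) (nr σ Dᶜ) hp1 hp2 bp2 bs1 bs2 T
    (nr_null σ D _ hσT) (nr_null σ Dᶜ _ hσT) L hkr
  rw [hex2] at hE
  have k1 : m ^ 2 * S ≤ m ^ 2 * En p (nr σ D) (nr σ D) :=
    mul_le_mul_of_nonneg_left g1 (sq_nonneg m)
  have k2 : (1 - m) ^ 2 * V ≤ (1 - m) ^ 2 * En p (nr σ Dᶜ) (nr σ Dᶜ) :=
    mul_le_mul_of_nonneg_left g2 (sq_nonneg _)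
  have k3 : 2 * (1 - m) * m * (-L) ≤ 2 * (1 - m) * m * En p (nr σ D) (nr σ Dᶜ) :=
    mul_le_mul_of_nonneg_left g3 (by
      have : 0 ≤ 1 - m := by linarith
      positivity)
  have e1 : (1 - (1 - m)) ^ 2 = m ^ 2 := by ring
  have e2 : 2 * (1 - m) * (1 - (1 - m)) = 2 * (1 - m) * m := by ring
  rw [e1, e2] at hE
  have k4 : 0 ≤ m ^ 2 * V := by positivity
  have k5 : 0 ≤ m ^ 2 * L := by positivity
  nlinarith

theorem kr_lower {n : ℕ} (p R : ℝ) (hR : 0 ≤ R) :
    ∃ L : ℝ, 0 ≤ L ∧ ∀ x ∈ Metric.closedBall (0 : E n) R, ∀ y ∈ Metric.closedBall (0 : E n) R,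
      -L ≤ kr p x y := by
  refine ⟨2 * R, by linarith, ?_⟩
  intro x hx y hy
  unfold kr
  split_ifs with hp
  · have hd : dist x y ≤ 2 * R := by
      have h1 := Metric.mem_closedBall.mp hx
      have h2 := Metric.mem_closedBall.mp hy
      have h3 := dist_triangle x 0 y
      rw [dist_comm 0 y] at h3
      linarith
    have hlog : Real.log (dist x y) ≤ dist x y := by
      rcases eq_or_lt_of_le (dist_nonneg (x := x) (y := y)) with h | h
      · rw [← h]; simp
      · exact (Real.log_le_sub_one_of_pos h).trans (by linarith)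
    linarith
  · have : 0 ≤ dist x y ^ (-p) := Real.rpow_nonneg dist_nonneg _
    linarith

theorem loc3_proof (hmass : S_mass) : S_loc3 := by
  intro n p q μ ν V C1 C2 γ hctx x0 c r2 hc hr2 hL2
  obtain ⟨hp, hpq, -, hμ, hB, hBS, hV, hlow, -⟩ := hctx
  obtain ⟨R0, hR0⟩ := hBS
  set R : ℝ := max R0 0 with hR
  have hμR : μ (Metric.closedBall 0 R)ᶜ = 0 := by
    refine measure_mono_null ?_ hR0
    exact compl_subset_compl.mpr (Metric.closedBall_subset_closedBall (le_max_left _ _))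
  obtain ⟨L, hL0, hL⟩ := kr_lower (n := n) p R (le_max_right _ _)
  intro C hC
  set K : ℝ := V + L with hK
  have hK0 : 0 ≤ K := by linarith
  refine ⟨1 + (C + 2 * K) / c, by positivity, r2, hr2, ?_⟩
  intro r hr σ hσ hE
  have hr0 : 0 < r := hr.1
  have hσT : σ (Metric.closedBall 0 R)ᶜ = 0 := by
    obtain ⟨-, ⟨a, ha⟩, -⟩ := hσ
    have h1 := ha (Metric.closedBall 0 R)ᶜ
    rw [Measure.smul_apply, hμR, smul_zero] at h1
    exact le_antisymm h1 zero_le
  have hrq : 0 < r ^ q := Real.rpow_pos_of_pos hr0 q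
  have hrnq : 0 < r ^ (-q) := Real.rpow_pos_of_pos hr0 _
  have hprod : r ^ q * r ^ (-q) = 1 := by
    rw [← Real.rpow_add hr0, add_neg_cancel, Real.rpow_zero]
  have h := hmass n p q hp hpq μ inferInstance hB V hV hlow σ hσ (Metric.closedBall x0 r)
    (Metric.closedBall 0 R) measurableSet_closedBall measurableSet_closedBall (C * r ^ q)
    (c * r ^ (-q)) L (by positivity) (by positivity) hL0 hE (hL2 r hr) hσT hL
  set m : ℝ := (σ (Metric.closedBall x0 r)).toReal with hm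
  have hm0 : 0 ≤ m := ENNReal.toReal_nonneg
  -- y = m r^(-q)
  set y : ℝ := m * r ^ (-q) with hy
  have hy0 : 0 ≤ y := by positivity
  have hmy : m = y * r ^ q := by
    rw [hy, mul_assoc, mul_comm (r ^ (-q)), hprod, mul_one]
  have h5 : c * y ^ 2 ≤ C + 2 * y * K := by
    have h6 : (c * y ^ 2) * r ^ q ≤ (C + 2 * y * K) * r ^ q := by
      calc (c * y ^ 2) * r ^ q = (y * r ^ q) ^ 2 * (c * r ^ (-q)) := by
            have : (y * r ^ q) ^ 2 * (c * r ^ (-q)) = c * y ^ 2 * r ^ q * (r ^ q * r ^ (-q)) := by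
              ring
            rw [this, hprod, mul_one]
        _ = m ^ 2 * (c * r ^ (-q)) := by rw [← hmy]
        _ ≤ C * r ^ q + 2 * m * (V + L) := h
        _ = (C + 2 * y * K) * r ^ q := by
            rw [hmy]
            ring
    exact le_of_mul_le_mul_right h6 hrq
  have h7 : y ≤ 1 + (C + 2 * K) / c := by
    by_contra hcon
    push Not at hcon
    have h8 : 0 ≤ (C + 2 * K) / c := by positivity
    have h9 : 1 ≤ y := by linarith
    have h10 : (C + 2 * K) / c < y := by linarith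
    rw [div_lt_iff₀ hc] at h10
    have h11 : (C + 2 * K) * y < (y * c) * y := mul_lt_mul_of_pos_right h10 (by linarith)
    nlinarith
  rw [hmy]
  exact mul_le_mul_of_nonneg_right h7 hrq.le

end Pool.Agent.Helper164.RC
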